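import Mathlib
import Pool.Agent.R692.TVDefs
import Pool.Agent.R692.TVHahn

set_option autoImplicit false

namespace Pool.Agent.Results.MP_064e41_al.BoundFails

open Pool.Agent.R692.TV

/-- Let `p` be a prime, `m ≥ 1`, let `2 ≤ r ≤ p - 1` be an integer which does not divide `p - 1`
(for example `p = 5`, `r = 3`), let `k` be a field containing a primitive `p`-th root of unity `ω`,
let `F = k(α₁, β₁, …, α_m, β_m)` be the rational function field in `2m` indeterminates (the
fraction field of the polynomial ring in indeterminates indexed by `Fin m × Fin 2`, where `α_i` has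
index `(i, 0)` and `β_i` has index `(i, 1)`), and let `A = ⨂ᵢ (α_i, β_i)_{p,F}` be the generic tensor
product of `m` symbol algebras of degree `p`. Then `A` is a central division `F`-algebra of degree
`p ^ m`, and it has an `F`-subspace `V` of dimension greater than `⌊(p ^ (2m) - 1) / r⌋` with
`Trd (v ^ r) = 0` for all `v ∈ V`. -/
theorem result (p m r : ℕ) (hp : p.Prime) (hm : 1 ≤ m) (hr : 2 ≤ r) (hrp : r ≤ p - 1)
    (hdiv : ¬ r ∣ p - 1) (k : Type) [Field k] (ω : k) (hω : IsPrimitiveRoot ω p)
    (F : Type) [Field F] [Algebra (MvPolynomial (Fin m × Fin 2) k) F]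
    [IsFractionRing (MvPolynomial (Fin m × Fin 2) k) F] (ω' : F) (α β : Fin m → F)
    (hω' : ω' = algebraMap (MvPolynomial (Fin m × Fin 2) k) F (MvPolynomial.C ω))
    (hα : ∀ i, α i = algebraMap (MvPolynomial (Fin m × Fin 2) k) F (MvPolynomial.X (i, 0)))
    (hβ : ∀ i, β i = algebraMap (MvPolynomial (Fin m × Fin 2) k) F (MvPolynomial.X (i, 1))) :
    IsCentralDivisionAlgebra F (SymTensor F p m ω' α β) (p ^ m) ∧
      HasTraceVanishingSubspace F (SymTensor F p m ω' α β) r ((p ^ (2 * m) - 1) / r) :=
  main F p r hp hm hr hrp hdiv ω hω ω' α β hω' hα hβ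

end Pool.Agent.Results.MP_064e41_al.BoundFails
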